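import Pool.Agent.H75.GS.Targets

/-!
# FID: the bad event is rare in the ideal world
-/

set_option autoImplicit false

namespace Pool.Agent.H24.GS

open Finset Filter Pool.Agent.H6.NB Pool.Agent.H70.OQ Pool.Agent.H75.GS

theorem kst_vl {B Ω : Type} {nn qb : Ω → ℕ} (T : B → Bool) (e e' : Ω → Bool) (P : Blk nn qb) :
    kst e (vlG T e' P) = vlG T e P := by
  funext c
  cases c <;> rfl

theorem fm_vl {B Ω : Type} {nn qb : Ω → ℕ} (S : ℕ) (e : Ω → Bool) (P : Blk nn qb)
    (v : PosG B Ω nn qb) : Fm S 1 0 fun y : B → Bool => vlG y e P v := by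
  cases v with
  | cst b => exact ⟨.leaf b, Nat.zero_le _, fun y => rfl⟩
  | bas a =>
    refine ⟨.node a (.leaf false) (.leaf true), le_of_eq rfl, fun y => ?_⟩
    show cond (y a) true false = y a
    cases y a <;> rfl
  | key s => exact ⟨.leaf (e s), Nat.zero_le _, fun y => rfl⟩
  | blk s i v => exact ⟨.leaf (P s i v), Nat.zero_le _, fun y => rfl⟩

open Classical in
theorem pf_FID (hIDG : T_IDG) (hMEG : T_MEG) (hEXG : T_EXG) (hFMS : T_FMS) (hSYX : T_SYX) :
    T_FID := by
  intro W X B Ω _ _ _ _ _ nn qb few T U D lev S t d h a0 w r k δ δm hS hP hS1 hh hT hδ hsm hfew P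
  obtain ⟨hfr, haw⟩ := hSYX B Ω nn qb D lev S t d h a0 hS1 hP.t_pos hS
  -- the aware instances
  have h3 := hIDG W X B Ω T U (accG (Daw D lev a0) P) lev h S t d w r k δ δm
    (hMEG B Ω nn qb _ lev S t d h haw P).1 (hMEG B Ω nn qb _ lev S t d h haw P).2 hP hT hδ
  -- the frozen instances
  have hf : ∀ (s : Ω) (e : Ω → Bool), ((univ.filter fun p : W => k 0 <
      (univ.filter fun x => D s (vlG (U p x) e P) ≠ D s (vlG (T p) e P)).card).card : ℝ) ≤
      δ 0 * Fintype.card W := by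
    intro s e
    refine hT (fun y => D s (vlG y e P)) ?_
    have h1 := hFMS (PosG B Ω nn qb) B S t 1 d (D s) (fun v y => vlG y e P v)
      (fun v => fm_vl S e P v) (hS.fm s)
    rw [mul_one] at h1
    exact h1
  have hds : ∀ (p : W) (e : Ω → Bool) (s : Ω),
      dsG (accG (Dfr D lev a0 e) P) h (T p) (U p) e s ⊆
        univ.filter fun x => D s (vlG (U p x) e P) ≠ D s (vlG (T p) e P) := by
    intro p e s x hx
    rw [mem_filter]
    refine ⟨mem_univ _, fun hne => ?_⟩
    have h1 := (mem_filter.1 hx).2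
    have hL := (hMEG B Ω nn qb _ lev S t d h (hfr e) P).1
    rw [(hEXG B Ω _ lev h hL).2.2.1] at h1
    have ha : ∀ (T' : B → Bool) (e' : Ω → Bool), accG (Dfr D lev a0 e) P s T' e' =
        (decide (lev s < a0) && D s (vlG T' e P)) := by
      intro T' e'
      show (decide (lev s < a0) && D s (kst e (vlG T' e' P))) = _
      rw [kst_vl]
    rw [ha, ha, hne] at h1
    revert h1
    cases (decide (lev s < a0) && D s (vlG (T p) e P)) <;> simp
  obtain ⟨A1, hA1⟩ : ∃ A1 : Finset (W × (Ω → Bool)), A1 =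
    (univ.filter fun p : W => few p) ×ˢ (univ : Finset (Ω → Bool)) := ⟨_, rfl⟩
  obtain ⟨A2, hA2⟩ : ∃ A2 : Finset (W × (Ω → Bool)), A2 =
    (univ : Finset (Ω × (Ω → Bool))).biUnion fun q => (univ.filter fun p : W => k 0 <
      (univ.filter fun x => D q.1 (vlG (U p x) q.2 P) ≠
        D q.1 (vlG (T p) q.2 P)).card).image fun p => (p, q.2) := ⟨_, rfl⟩
  obtain ⟨A3, hA3⟩ : ∃ A3 : Finset (W × (Ω → Bool)), A3 =
    univ.filter fun p : W × (Ω → Bool) =>
      ¬ TyG (accG (Daw D lev a0) P) lev h k h (T p.1) (U p.1) p.2 := ⟨_, rfl⟩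
  have hsub : (univ.filter fun p : W × (Ω → Bool) => Evt few T U D lev a0 h k p.1 p.2 P) ⊆
      A1 ∪ A2 ∪ A3 := by
    intro p hp
    rw [mem_filter] at hp
    rw [mem_union, mem_union]
    rcases hp.2 with h1 | h1 | h1
    · left; left
      rw [hA1, mem_product]
      exact ⟨mem_filter.2 ⟨mem_univ _, h1⟩, mem_univ _⟩
    · left; right
      unfold TyG at h1
      push Not at h1
      obtain ⟨s, -, hs⟩ := h1
      rw [hA2, mem_biUnion]
      refine ⟨(s, p.2), mem_univ _, mem_image.2 ⟨p.1, mem_filter.2 ⟨mem_univ _, ?_⟩, rfl⟩⟩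
      exact hs.trans_le (card_le_card (hds p.1 p.2 s))
    · right
      rw [hA3]
      exact mem_filter.2 ⟨mem_univ _, h1⟩
  obtain ⟨N, hN⟩ : ∃ N : ℝ, N = Fintype.card W * 2 ^ Fintype.card Ω := ⟨_, rfl⟩
  have hN0 : 0 ≤ N := by rw [hN]; positivity
  have hcf : Fintype.card (Ω → Bool) = 2 ^ Fintype.card Ω := by
    rw [Fintype.card_fun, Fintype.card_bool]
  have c1 : (A1.card : ℝ) ≤ 1 / 16 * N := by
    rw [hA1, card_product, card_univ, hcf, hN]
    push_cast
    have h2 : (0 : ℝ) ≤ 2 ^ Fintype.card Ω := by positivity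
    have h4 := mul_le_mul_of_nonneg_right hfew h2
    linarith
  have c2 : (A2.card : ℝ) ≤ Fintype.card Ω * (δ 0 * N) := by
    have h5 : (A2.card : ℝ) ≤ ∑ q : Ω × (Ω → Bool), δ 0 * Fintype.card W := by
      rw [hA2]
      have h6 := card_biUnion_le (s := (univ : Finset (Ω × (Ω → Bool))))
        (t := fun q => (univ.filter fun p : W => k 0 <
          (univ.filter fun x => D q.1 (vlG (U p x) q.2 P) ≠
            D q.1 (vlG (T p) q.2 P)).card).image fun p => (p, q.2))
      refine (Nat.cast_le.2 h6).trans ?_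
      rw [Nat.cast_sum]
      refine sum_le_sum fun q _ => ?_
      exact (Nat.cast_le.2 card_image_le).trans (hf q.1 q.2)
    refine h5.trans (le_of_eq ?_)
    rw [sum_const, card_univ, Fintype.card_prod, hcf, nsmul_eq_mul, hN]
    push_cast
    ring
  have c3 : (A3.card : ℝ) ≤ Fintype.card Ω * (δm * N) := by
    rw [hA3, hN]
    exact h3
  have hδ0 : δ 0 ≤ δm := hδ 0 hh
  have hO : (0 : ℝ) ≤ Fintype.card Ω := Nat.cast_nonneg _
  have c4 : (Fintype.card Ω : ℝ) * (δ 0 * N) ≤ Fintype.card Ω * (δm * N) :=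
    mul_le_mul_of_nonneg_left (mul_le_mul_of_nonneg_right hδ0 hN0) hO
  have c5 : (Fintype.card Ω : ℝ) * (δm * N) ≤ 1 / 16 * N := by
    rw [← mul_assoc]
    exact mul_le_mul_of_nonneg_right hsm hN0
  have c6 : ((univ.filter fun p : W × (Ω → Bool) =>
      Evt few T U D lev a0 h k p.1 p.2 P).card : ℝ) ≤ A1.card + A2.card + A3.card := by
    have h7 := (card_le_card hsub).trans (card_union_le _ _)
    have h8 := card_union_le A1 A2
    have h9 : (univ.filter fun p : W × (Ω → Bool) =>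
      Evt few T U D lev a0 h k p.1 p.2 P).card ≤ A1.card + A2.card + A3.card := by omega
    exact_mod_cast h9
  rw [← hN]
  linarith

end Pool.Agent.H24.GS
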